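import Pool.Agent.Y248.FD.Stm
import Pool.Agent.Y363.FC.SL

set_option autoImplicit false

/-! # Job Y248-FD KL: kernels of the pieces near the equator -/

namespace Pool.Agent.Y574.FD

open MeasureTheory Set Metric Complex Filter
open scoped ENNReal RealInnerProductSpace Topology FourierTransform
open Pool.Agent.H789R2.FR (E)
open Pool.Agent.H438R2.RZ (Bump)
open Pool.Agent.Y248.BA
open Pool.Agent.Y248.FB Pool.Agent.Y248.FC Pool.Agent.Y248.FD
open Pool.Agent.Y363.FC (ee es es_mp es_me es_cont es_inner es_norm es_le1 es_le2 es_fun)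

variable {m : ℕ}

theorem hd_es (a : E m) (b : E 1) : hd m (es m 1 (a, b)) = a := by
  rw [es_fun]
  exact congrArg Prod.fst ((ee m 1).apply_symm_apply (a, b))

theorem pr_es (a : E m) (b : E 1) : pr m (es m 1 (a, b)) = b := by
  rw [es_fun]
  exact congrArg Prod.snd ((ee m 1).apply_symm_apply (a, b))

theorem es_hp (x : E (m + 1)) : es m 1 (hd m x, pr m x) = x := by
  rw [es_fun]
  exact (ee m 1).symm_apply_apply x

/-- Fourier transform in two steps -/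
theorem four_split {q : E (m + 1) → ℂ} (hq : Integrable q) (a : E m) (b : E 1) :
    𝓕 q (es m 1 (a, b)) = 𝓕 (fun τ : E 1 => 𝓕 (fun ξ : E m => q (es m 1 (ξ, τ))) a) b := by
  have h1 : Integrable (fun z : E m × E 1 => q (es m 1 z)) :=
    (es_mp.integrable_comp_emb es_me).2 hq
  have h2 : Integrable (fun z : E m × E 1 =>
      cexp (((-2 * Real.pi * ⟪es m 1 z, es m 1 (a, b)⟫ : ℝ) : ℂ) * I) * q (es m 1 z)) := by
    refine h1.bdd_mul (c := 1) ?_ (Eventually.of_forall fun z => ?_)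
    · apply Continuous.aestronglyMeasurable
      have := es_cont (m := m) (k := 1)
      fun_prop
    · rw [Complex.norm_exp_ofReal_mul_I]
  rw [four_eq, ← es_mp.integral_comp es_me, Measure.volume_eq_prod, integral_prod_symm _ h2,
    four_eq]
  congr 1
  funext τ
  rw [four_eq, ← integral_const_mul]
  congr 1
  funext ξ
  rw [es_inner, ← mul_assoc, ← Complex.exp_add]
  congr 2
  push_cast
  ring

/-! ### the cutoff -/

/-- the cutoff in the last variable -/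
noncomputable def Th (θ : ℝ → ℝ) (l : ℝ) (τ : E 1) : ℂ := ((θ (‖τ‖ ^ 2 / l ^ 2) : ℝ) : ℂ)

theorem Th_smooth {θ : ℝ → ℝ} (hθ : Cut θ) (l : ℝ) : ContDiff ℝ (⊤ : ℕ∞) (Th θ l) := by
  unfold Th
  exact Complex.ofRealCLM.contDiff.comp (hθ.1.comp ((contDiff_norm_sq ℝ).div_const _))

theorem Th_zero {θ : ℝ → ℝ} (hθ : Cut θ) {l : ℝ} (hl : 0 < l) (τ : E 1)
    (h : 2 * l ^ 2 ≤ ‖τ‖ ^ 2) : Th θ l τ = 0 := by
  unfold Th
  rw [hθ.2 _ (by rw [le_div_iff₀ (by positivity)]; exact h)]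
  simp

theorem Th_comp {θ : ℝ → ℝ} (hθ : Cut θ) {l : ℝ} (hl : 0 < l) : HasCompactSupport (Th θ l) := by
  refine HasCompactSupport.of_support_subset_isCompact (isCompact_closedBall (0 : E 1) (2 * l))
    fun τ hτ => ?_
  rw [mem_closedBall_zero_iff]
  by_contra hc
  push Not at hc
  exact hτ (Th_zero hθ hl τ (by nlinarith [norm_nonneg τ]))

theorem Th_int {θ : ℝ → ℝ} (hθ : Cut θ) {l : ℝ} (hl : 0 < l) : Integrable (Th θ l) :=
  (Th_smooth hθ l).continuous.integrable_of_hasCompactSupport (Th_comp hθ hl)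

theorem Th_bdd {θ : ℝ → ℝ} (hθ : Cut θ) : ∃ M : ℝ, 0 < M ∧ ∀ (l : ℝ) (τ : E 1),
    ‖Th θ l τ‖ ≤ M := by
  obtain ⟨M, hM⟩ := (isCompact_Icc (a := (0 : ℝ)) (b := 2)).exists_bound_of_continuousOn
    hθ.1.continuous.continuousOn
  refine ⟨max M 1, by positivity, fun l τ => ?_⟩
  unfold Th
  rw [Complex.norm_real]
  rcases le_total 2 (‖τ‖ ^ 2 / l ^ 2) with h | h
  · rw [hθ.2 _ h]
    simp
  · exact (hM _ ⟨by positivity, h⟩).trans (le_max_left _ _)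

/-- integrability of the Fourier transform with weights -/
theorem Th_w {θ : ℝ → ℝ} (hθ : Cut θ) {l : ℝ} (hl : 0 < l) (k : ℕ) :
    Integrable fun s : E 1 => ‖s‖ ^ k * ‖𝓕 (Th θ l) s‖ := by
  have h := (𝓕 ((Th_comp hθ hl).toSchwartzMap (Th_smooth hθ l))).integrable_pow_mul volume k
  refine h.congr (Eventually.of_forall fun s => ?_)
  simp only [SchwartzMap.fourier_coe]
  rfl

theorem Th_four_int {θ : ℝ → ℝ} (hθ : Cut θ) {l : ℝ} (hl : 0 < l) :
    Integrable fun s : E 1 => ‖𝓕 (Th θ l) s‖ := by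
  have := Th_w hθ hl 0
  simpa using this

theorem Th_scale {θ : ℝ → ℝ} {l : ℝ} (hl : 0 < l) (s : E 1) :
    𝓕 (Th θ l) s = (l : ℂ) * 𝓕 (Th θ 1) (l • s) := by
  rw [four_eq, four_eq]
  have h := Measure.integral_comp_smul (volume : Measure (E 1))
    (fun σ : E 1 => cexp (((-2 * Real.pi * ⟪σ, l • s⟫ : ℝ) : ℂ) * I) * Th θ 1 σ) l⁻¹
  have h1 : Module.finrank ℝ (E 1) = 1 := by simp [E]
  rw [h1, pow_one, inv_inv, abs_of_pos hl] at h
  have h2 : ∀ σ : E 1, cexp (((-2 * Real.pi * ⟪l⁻¹ • σ, l • s⟫ : ℝ) : ℂ) * I) *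
      Th θ 1 (l⁻¹ • σ) = cexp (((-2 * Real.pi * ⟪σ, s⟫ : ℝ) : ℂ) * I) * Th θ l σ := by
    intro σ
    have e1 : ⟪l⁻¹ • σ, l • s⟫ = ⟪σ, s⟫ := by
      rw [inner_smul_left, inner_smul_right]
      simp only [conj_trivial]
      field_simp
    have e2 : Th θ 1 (l⁻¹ • σ) = Th θ l σ := by
      unfold Th
      rw [norm_smul, norm_inv, Real.norm_eq_abs, abs_of_pos hl]
      congr 2
      field_simp
    rw [e1, e2]
  simp only [h2] at h
  rw [h, Complex.real_smul]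

theorem Th_scale_int {θ : ℝ → ℝ} {l : ℝ} (hl : 0 < l) :
    ∫ s : E 1, ‖𝓕 (Th θ l) s‖ = ∫ s : E 1, ‖𝓕 (Th θ 1) s‖ := by
  have h := Measure.integral_comp_smul (volume : Measure (E 1))
    (fun σ : E 1 => ‖𝓕 (Th θ 1) σ‖) l
  have h1 : Module.finrank ℝ (E 1) = 1 := by simp [E]
  rw [h1, pow_one, abs_of_pos (inv_pos.2 hl)] at h
  have h2 : ∀ s : E 1, ‖𝓕 (Th θ l) s‖ = l * ‖𝓕 (Th θ 1) (l • s)‖ := by
    intro s
    rw [Th_scale hl, norm_mul, Complex.norm_real, Real.norm_eq_abs, abs_of_pos hl]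
  simp only [h2]
  rw [integral_const_mul, h, smul_eq_mul, ← mul_assoc, mul_inv_cancel₀ hl.ne', one_mul]

/-! ### the Fourier transform in the first variables -/

/-- Fourier transform of the piece in the first variables -/
noncomputable def Hx (ψ : ℝ → ℝ) (A : ℝ) (a : E m) (τ : E 1) : ℂ :=
  𝓕 (fun ξ : E m => mu ψ A 1 (es m 1 (ξ, τ))) a

theorem Hx_far {ψ : ℝ → ℝ} (hψ : Bump ψ) {A : ℝ} (hA : 0 < A) (a : E m) (τ : E 1)
    (h : 1 < ‖τ‖) : Hx ψ A a τ = 0 := by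
  unfold Hx
  rw [four_eq]
  have : ∀ ξ : E m, mu ψ A 1 (es m 1 (ξ, τ)) = 0 := fun ξ =>
    mu_far hψ hA one_pos _ (lt_of_lt_of_le h (es_le2 ξ τ))
  simp only [this, mul_zero, integral_zero]

theorem Hx_cont {ψ : ℝ → ℝ} (hψ : Bump ψ) {A : ℝ} (hA : 0 < A) (a : E m) :
    Continuous (Hx ψ A a) := by
  obtain ⟨M, hM, hb⟩ := mu_bdd hψ
  have h1 : Hx ψ A a = fun τ => ∫ ξ : E m, cexp (((-2 * Real.pi * ⟪ξ, a⟫ : ℝ) : ℂ) * I) *
      mu ψ A 1 (es m 1 (ξ, τ)) := by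
    funext τ
    unfold Hx
    rw [four_eq]
  rw [h1]
  have hes := es_cont (m := m) (k := 1)
  have hmu := mu_cont (n := m + 1) hψ A 1
  refine continuous_of_dominated (bound := (closedBall (0 : E m) 1).indicator fun _ => M)
    (fun τ => ?_) (fun τ => Eventually.of_forall fun ξ => ?_) ?_
    (Eventually.of_forall fun ξ => ?_)
  · apply Continuous.aestronglyMeasurable
    have : Continuous fun ξ : E m => mu ψ A 1 (es m 1 (ξ, τ)) :=
      hmu.comp (hes.comp (by fun_prop))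
    fun_prop
  · by_cases hξ : ξ ∈ closedBall (0 : E m) 1
    · rw [indicator_of_mem hξ, norm_mul, Complex.norm_exp_ofReal_mul_I, one_mul]
      exact hb _ _ _ _
    · rw [indicator_of_notMem hξ]
      rw [mem_closedBall_zero_iff, not_le] at hξ
      rw [mu_far hψ hA one_pos _ (lt_of_lt_of_le hξ (es_le1 ξ τ)), mul_zero, norm_zero]
  · rw [integrable_indicator_iff isClosed_closedBall.measurableSet]
    exact integrableOn_const measure_closedBall_lt_top.ne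
  · have : Continuous fun τ : E 1 => mu ψ A 1 (es m 1 (ξ, τ)) :=
      hmu.comp (hes.comp (by fun_prop))
    fun_prop

theorem Hx_int {ψ : ℝ → ℝ} (hψ : Bump ψ) {A : ℝ} (hA : 0 < A) (a : E m) :
    Integrable (Hx ψ A a) := by
  refine (Hx_cont hψ hA a).integrable_of_hasCompactSupport ?_
  refine HasCompactSupport.of_support_subset_isCompact (isCompact_closedBall (0 : E 1) 1)
    fun τ hτ => ?_
  rw [mem_closedBall_zero_iff]
  by_contra hc
  push Not at hc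
  exact hτ (Hx_far hψ hA a τ hc)

theorem Hx_four {ψ : ℝ → ℝ} (hψ : Bump ψ) {A : ℝ} (hA : 0 < A) (a : E m) :
    𝓕 (Hx ψ A a) = fun s => Kr ψ A 1 (es m 1 (a, s)) := by
  funext s
  exact (four_split (mu_int hψ hA one_pos one_le_two) a s).symm

theorem Kr_int {ψ : ℝ → ℝ} (hψ : Bump ψ) {A : ℝ} (hA : 1 ≤ A) (a : E m) :
    Integrable fun s : E 1 => Kr ψ A 1 (es m 1 (a, s)) := by
  obtain ⟨C0, hC0, h0⟩ := Kr_dec (m + 1) hψ 0
  obtain ⟨C2, hC2, h2⟩ := Kr_dec (m + 1) hψ 2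
  have hc : Continuous fun s : E 1 => Kr ψ A 1 (es m 1 (a, s)) := by
    have h1 : Continuous (Kr (n := m + 1) ψ A 1) :=
      four_cont (mu_int hψ (by linarith) one_pos one_le_two)
    exact h1.comp ((es_cont (m := m) (k := 1)).comp (by fun_prop))
  refine ((Jw_int (n := 1)).const_mul (2 * C0 + 2 * (C2 * A ^ 2))).mono'
    hc.aestronglyMeasurable (Eventually.of_forall fun s => ?_)
  have e0 := h0 A 1 hA le_rfl one_le_two (es m 1 (a, s))
  have e2 := h2 A 1 hA le_rfl one_le_two (es m 1 (a, s))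
  rw [pow_zero, pow_zero, one_mul, mul_one] at e0
  have e3 : ‖s‖ ^ 2 * ‖Kr ψ A 1 (es m 1 (a, s))‖ ≤ C2 * A ^ 2 := by
    refine le_trans ?_ e2
    have := es_le2 a s
    gcongr
  unfold Jw
  have e4 : (-(((1 : ℕ) : ℝ) + 1)) = -((2 : ℕ) : ℝ) := by norm_num
  rw [e4, Real.rpow_neg (by positivity), Real.rpow_natCast, ← div_eq_mul_inv,
    le_div_iff₀ (by positivity)]
  have e5 : (1 + ‖s‖) ^ 2 ≤ 2 + 2 * ‖s‖ ^ 2 := by nlinarith [sq_nonneg (1 - ‖s‖)]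
  calc ‖Kr ψ A 1 (es m 1 (a, s))‖ * (1 + ‖s‖) ^ 2
      ≤ ‖Kr ψ A 1 (es m 1 (a, s))‖ * (2 + 2 * ‖s‖ ^ 2) := by gcongr
    _ = 2 * ‖Kr ψ A 1 (es m 1 (a, s))‖ + 2 * (‖s‖ ^ 2 * ‖Kr ψ A 1 (es m 1 (a, s))‖) := by ring
    _ ≤ _ := by linarith

theorem Hx_inv {ψ : ℝ → ℝ} (hψ : Bump ψ) {A : ℝ} (hA : 1 ≤ A) (a : E m) (τ : E 1) :
    Hx ψ A a τ = gh (fun s : E 1 => Kr ψ A 1 (es m 1 (a, s))) τ := by
  have hA0 : 0 < A := by linarith
  have h1 : Integrable (𝓕 (Hx ψ A a)) := by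
    rw [Hx_four hψ hA0]
    exact Kr_int hψ hA a
  have h2 := (Hx_cont hψ hA0 a).fourierInv_fourier_eq (Hx_int hψ hA0 a) h1
  have h3 := congrFun h2 τ
  rw [Hx_four hψ hA0, Real.fourierInv_eq_fourier_neg] at h3
  exact h3.symm

/-- the piece in coordinates -/
theorem pm_es (ψ θ : ℝ → ℝ) (A l : ℝ) (ξ : E m) (τ : E 1) :
    pm m ψ θ A l (es m 1 (ξ, τ)) = Th θ l τ * mu ψ A 1 (es m 1 (ξ, τ)) := by
  unfold pm Th
  rw [pr_es, mul_comm]

theorem pm_int {ψ θ : ℝ → ℝ} (hψ : Bump ψ) (hθ : Cut θ) {A : ℝ} (hA : 0 < A) (l : ℝ) :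
    Integrable (pm m ψ θ A l) := by
  have hpr : Continuous (pr m : E (m + 1) → E 1) := by
    have h : (pr m : E (m + 1) → E 1) = fun x => (ee m 1 x).2 := rfl
    rw [h]
    exact continuous_snd.comp (ee m 1).continuous
  have h1 : Continuous fun ξ : E (m + 1) => ((θ (‖pr m ξ‖ ^ 2 / l ^ 2) : ℝ) : ℂ) :=
    Complex.continuous_ofReal.comp (hθ.1.continuous.comp (by fun_prop))
  unfold pm
  refine ((mu_cont hψ A 1).mul h1).integrable_of_hasCompactSupport ?_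
  exact (mu_comp hψ hA one_pos one_le_two).mul_right

theorem pm_four {ψ θ : ℝ → ℝ} (hψ : Bump ψ) (hθ : Cut θ) {A : ℝ} (hA : 0 < A) (l : ℝ)
    (a : E m) (t : E 1) :
    𝓕 (pm m ψ θ A l) (es m 1 (a, t)) = 𝓕 (fun τ => Th θ l τ * Hx ψ A a τ) t := by
  rw [four_split (pm_int hψ hθ hA l)]
  have key : (fun τ : E 1 => 𝓕 (fun ξ : E m => pm m ψ θ A l (es m 1 (ξ, τ))) a) =
      fun τ => Th θ l τ * Hx ψ A a τ := by
    funext τ
    unfold Hx
    rw [four_eq, four_eq, ← integral_const_mul]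
    congr 1
    funext ξ
    rw [pm_es]
    ring
  rw [key]

theorem pm_conv {ψ θ : ℝ → ℝ} (hψ : Bump ψ) (hθ : Cut θ) {A : ℝ} (hA : 1 ≤ A) {l : ℝ}
    (hl : 0 < l) (a : E m) (t : E 1) :
    𝓕 (pm m ψ θ A l) (es m 1 (a, t)) =
      ∫ s : E 1, 𝓕 (Th θ l) (t - s) * Kr ψ A 1 (es m 1 (a, s)) := by
  rw [pm_four hψ hθ (by linarith), conv_eq (Th_int hθ hl) (Kr_int hψ hA a)]
  have key : (fun τ => Th θ l τ * Hx ψ A a τ) =
      fun τ => Th θ l τ * gh (fun s : E 1 => Kr ψ A 1 (es m 1 (a, s))) τ := by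
    funext τ
    rw [Hx_inv hψ hA]
  rw [key]

theorem pm_norm {ψ θ : ℝ → ℝ} (hψ : Bump ψ) (hθ : Cut θ) {A : ℝ} (hA : 1 ≤ A) {l : ℝ}
    (hl : 0 < l) (a : E m) (t : E 1) :
    ‖𝓕 (pm m ψ θ A l) (es m 1 (a, t))‖ ≤
      ∫ s : E 1, ‖𝓕 (Th θ l) (t - s)‖ * ‖Kr ψ A 1 (es m 1 (a, s))‖ := by
  rw [pm_conv hψ hθ hA hl]
  refine (norm_integral_le_integral_norm _).trans (le_of_eq ?_)
  congr 1
  funext s
  rw [norm_mul]

/-- the first bound -/
theorem kl_one (hkk : S_KK (m + 1)) {ψ θ : ℝ → ℝ} (hψ : Bump ψ) (hθ : Cut θ) :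
    ∃ C : ℝ, 0 < C ∧ ∀ A : ℝ, 4 ≤ A → ∀ l : ℝ, 0 < l → ∀ x : E (m + 1),
      ‖𝓕 (pm m ψ θ A l) x‖ ≤ C / A * (1 + ‖hd m x‖) ^ (-(m : ℝ) / 2) := by
  obtain ⟨C, hC, hk⟩ := hkk ψ hψ
  refine ⟨C * ((∫ s : E 1, ‖𝓕 (Th θ 1) s‖) + 1), ?_, fun A hA l hl x => ?_⟩
  · have : 0 ≤ ∫ s : E 1, ‖𝓕 (Th θ 1) s‖ := integral_nonneg fun _ => norm_nonneg _
    positivity
  have hA0 : 0 < A := by linarith
  have hI : 0 ≤ ∫ s : E 1, ‖𝓕 (Th θ 1) s‖ := integral_nonneg fun _ => norm_nonneg _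
  obtain ⟨a, t, rfl⟩ : ∃ a t, es m 1 (a, t) = x := ⟨_, _, es_hp x⟩
  rw [hd_es]
  refine (pm_norm hψ hθ (by linarith) hl a t).trans ?_
  have hkb : ∀ s : E 1, ‖Kr ψ A 1 (es m 1 (a, s))‖ ≤ C / A * (1 + ‖a‖) ^ (-(m : ℝ) / 2) := by
    intro s
    have h1 := (hk A 1 1 hA le_rfl one_le_two le_rfl one_le_two (es m 1 (a, s))).1
    have h2 : -kap (m + 1) = -(m : ℝ) / 2 := by
      unfold kap
      push_cast
      ring
    rw [h2] at h1
    refine h1.trans ?_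
    have h3 : (1 + ‖es m 1 (a, s)‖) ^ (-(m : ℝ) / 2) ≤ (1 + ‖a‖) ^ (-(m : ℝ) / 2) := by
      refine Real.rpow_le_rpow_of_nonpos (by positivity) ?_ ?_
      · have := es_le1 a s
        linarith
      · have : (0 : ℝ) ≤ m := Nat.cast_nonneg m
        linarith
    gcongr
  have hTi : Integrable fun s : E 1 => ‖𝓕 (Th θ l) (t - s)‖ :=
    (Th_four_int hθ hl).comp_sub_left t
  calc ∫ s : E 1, ‖𝓕 (Th θ l) (t - s)‖ * ‖Kr ψ A 1 (es m 1 (a, s))‖
      ≤ ∫ s : E 1, ‖𝓕 (Th θ l) (t - s)‖ * (C / A * (1 + ‖a‖) ^ (-(m : ℝ) / 2)) := by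
        refine integral_mono_of_nonneg (Eventually.of_forall fun s => by positivity)
          (hTi.mul_const _) (Eventually.of_forall fun s => ?_)
        exact mul_le_mul_of_nonneg_left (hkb s) (norm_nonneg _)
    _ = (∫ s : E 1, ‖𝓕 (Th θ 1) s‖) * (C / A * (1 + ‖a‖) ^ (-(m : ℝ) / 2)) := by
        rw [integral_mul_const, integral_sub_left_eq_self (fun s => ‖𝓕 (Th θ l) s‖) volume t,
          Th_scale_int hl]
    _ ≤ ((∫ s : E 1, ‖𝓕 (Th θ 1) s‖) + 1) * (C / A * (1 + ‖a‖) ^ (-(m : ℝ) / 2)) := by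
        gcongr
        linarith
    _ = _ := by ring

/-- the bound of the Fourier transform in the first variables -/
theorem Hx_bound (hrad : S_RAD m) {ψ : ℝ → ℝ} (hψ : Bump ψ) : ∃ C : ℝ, 0 < C ∧
    ∀ A : ℝ, 4 ≤ A → ∀ (a : E m) (τ : E 1), ‖τ‖ ^ 2 ≤ 1 / 32 →
      ‖Hx ψ A a τ‖ ≤ C / A * (1 + ‖a‖) ^ (-kap m) := by
  obtain ⟨C, hC, hr⟩ := hrad
  obtain ⟨M, hM, hb⟩ := mu_bdd hψ
  have hψb : ∀ v, |ψ v| ≤ M := by
    intro v
    have h1 := hb 1 v 1 0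
    unfold mu at h1
    rw [Complex.norm_real, norm_zero] at h1
    simpa using h1
  refine ⟨M * (C * (3 / 2)), by positivity, fun A hA a τ hτ => ?_⟩
  have hA0 : 0 < A := by linarith
  obtain ⟨f, hf⟩ : ∃ f : ℝ → ℂ, f = fun r => if 0 ≤ r then
    ((ψ (A * (1 - (r ^ 2 + ‖τ‖ ^ 2))) / M : ℝ) : ℂ) else 0 := ⟨_, rfl⟩
  have hfm : Measurable f := by
    rw [hf]
    refine Measurable.ite measurableSet_Ici ?_ measurable_const
    have := hψ.1.continuous.measurable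
    fun_prop
  have hf1 : ∀ r, ‖f r‖ ≤ 1 := by
    intro r
    rw [hf]
    dsimp only
    split_ifs
    · rw [Complex.norm_real, norm_div, Real.norm_eq_abs, Real.norm_eq_abs, abs_of_pos hM,
        div_le_one hM]
      exact hψb _
    · simp
  have hH : Hx ψ A a τ = (M : ℂ) * 𝓕 (fun ξ : E m => f ‖ξ‖) a := by
    unfold Hx
    rw [four_eq, four_eq, ← integral_const_mul]
    congr 1
    funext ξ
    have e1 : mu ψ A 1 (es m 1 (ξ, τ)) = (M : ℂ) * f ‖ξ‖ := by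
      rw [hf]
      unfold mu
      dsimp only
      rw [if_pos (norm_nonneg ξ), es_norm, one_pow, inv_one, one_mul, ← Complex.ofReal_mul,
        mul_div_cancel₀ _ hM.ne']
    rw [e1]
    ring
  have h2A : 2 / A ≤ 1 / 2 := by
    rw [div_le_iff₀ hA0]
    linarith
  have h2A' : 1 / (2 * A) ≤ 2 / A := by
    rw [div_le_div_iff₀ (by positivity) hA0]
    nlinarith
  have hpos : 0 < 1 / (2 * A) := by positivity
  obtain ⟨r0, hr0⟩ : ∃ r0, r0 = Real.sqrt (1 - ‖τ‖ ^ 2 - 2 / A) := ⟨_, rfl⟩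
  obtain ⟨r1, hr1⟩ : ∃ r1, r1 = Real.sqrt (1 - ‖τ‖ ^ 2 - 1 / (2 * A)) := ⟨_, rfl⟩
  have hτ0 : 0 ≤ ‖τ‖ ^ 2 := by positivity
  have s0 : r0 ^ 2 = 1 - ‖τ‖ ^ 2 - 2 / A := by
    rw [hr0, Real.sq_sqrt (by linarith)]
  have s1 : r1 ^ 2 = 1 - ‖τ‖ ^ 2 - 1 / (2 * A) := by
    rw [hr1, Real.sq_sqrt (by linarith)]
  have g0 : 1 / 2 ≤ r0 := by
    rw [hr0]
    refine Real.le_sqrt_of_sq_le ?_
    linarith
  have g1 : r0 ≤ r1 := by
    rw [hr0, hr1]
    exact Real.sqrt_le_sqrt (by linarith)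
  have g2 : r1 ≤ 2 := by
    have : r1 ≤ 1 := by
      rw [hr1, Real.sqrt_le_iff]
      constructor
      · norm_num
      · linarith
    linarith
  have g3 : r1 - r0 ≤ 3 / 2 / A := by
    have e1 : (r1 - r0) * (r1 + r0) = 3 / 2 / A := by
      have : (r1 - r0) * (r1 + r0) = r1 ^ 2 - r0 ^ 2 := by ring
      rw [this, s0, s1]
      field_simp
      ring
    have e2 : 0 ≤ r1 - r0 := by linarith
    rw [← e1]
    nlinarith
  have hsup : ∀ r, f r ≠ 0 → r0 ≤ r ∧ r ≤ r1 := by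
    intro r hr
    rw [hf] at hr
    dsimp only at hr
    split_ifs at hr with h0
    · have h1 : ψ (A * (1 - (r ^ 2 + ‖τ‖ ^ 2))) ≠ 0 := by
        intro h1
        apply hr
        rw [h1]
        simp
      obtain ⟨h2, h3⟩ := hψ.2 _ h1
      constructor
      · rw [hr0, Real.sqrt_le_left h0]
        have : 1 - (r ^ 2 + ‖τ‖ ^ 2) ≤ 2 / A := by
          rw [le_div_iff₀ hA0]
          linarith
        linarith
      · rw [hr1]
        refine Real.le_sqrt_of_sq_le ?_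
        have : 1 / (2 * A) ≤ 1 - (r ^ 2 + ‖τ‖ ^ 2) := by
          rw [div_le_iff₀ (by positivity)]
          linarith
        linarith
    · exact absurd rfl hr
  have hmain := hr f r0 r1 hfm hf1 g0 g1 g2 hsup a
  rw [hH, norm_mul, Complex.norm_real, Real.norm_eq_abs, abs_of_pos hM]
  calc M * ‖𝓕 (fun ξ : E m => f ‖ξ‖) a‖ ≤ M * (C * (r1 - r0) * (1 + ‖a‖) ^ (-kap m)) := by
        gcongr
    _ ≤ M * (C * (3 / 2 / A) * (1 + ‖a‖) ^ (-kap m)) := by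
        gcongr
    _ = _ := by ring

/-- the second bound -/
theorem kl_two (hrad : S_RAD m) {ψ θ : ℝ → ℝ} (hψ : Bump ψ) (hθ : Cut θ) :
    ∃ C : ℝ, 0 < C ∧ ∀ A : ℝ, 4 ≤ A → ∀ l : ℝ, 0 < l → l ≤ 1 / 8 → ∀ x : E (m + 1),
      ‖𝓕 (pm m ψ θ A l) x‖ ≤ C * l / A * (1 + ‖hd m x‖) ^ (-((m : ℝ) - 1) / 2) := by
  obtain ⟨C, hC, hH⟩ := Hx_bound hrad hψ
  obtain ⟨M, hM, hT⟩ := Th_bdd hθ
  obtain ⟨V, hV⟩ : ∃ V, V = (volume : Measure (E 1)).real (ball 0 1) := ⟨_, rfl⟩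
  have hV0 : 0 ≤ V := by rw [hV]; positivity
  refine ⟨M * C * 2 * V + 1, by positivity, fun A hA l hl hl8 x => ?_⟩
  have hA0 : 0 < A := by linarith
  obtain ⟨a, t, rfl⟩ : ∃ a t, es m 1 (a, t) = x := ⟨_, _, es_hp x⟩
  rw [hd_es, pm_four hψ hθ hA0]
  refine (four_bdd _ t).trans ?_
  have hk : -((m : ℝ) - 1) / 2 = -kap m := by
    unfold kap
    ring
  rw [hk]
  have hpt : ∀ τ : E 1, ‖Th θ l τ * Hx ψ A a τ‖ ≤
      (closedBall (0 : E 1) (2 * l)).indicator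
        (fun _ => M * (C / A * (1 + ‖a‖) ^ (-kap m))) τ := by
    intro τ
    by_cases hz : 2 * l ^ 2 ≤ ‖τ‖ ^ 2
    · rw [Th_zero hθ hl τ hz, zero_mul, norm_zero]
      exact indicator_nonneg (fun _ _ => by positivity) τ
    · push Not at hz
      have h1 : τ ∈ closedBall (0 : E 1) (2 * l) := by
        rw [mem_closedBall_zero_iff]
        nlinarith [norm_nonneg τ]
      rw [indicator_of_mem h1, norm_mul]
      have h2 : ‖τ‖ ^ 2 ≤ 1 / 32 := by nlinarith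
      exact mul_le_mul (hT l τ) (hH A hA a τ h2) (norm_nonneg _) hM.le
  have hfin : (volume : Measure (E 1)).real (closedBall 0 (2 * l)) = 2 * l * V := by
    rw [hV, measureReal_def, Measure.addHaar_closedBall volume (0 : E 1) (by positivity),
      ENNReal.toReal_mul, ENNReal.toReal_ofReal (by positivity), measureReal_def]
    have h1 : Module.finrank ℝ (E 1) = 1 := by simp [E]
    rw [h1, pow_one]
  calc ∫ τ : E 1, ‖Th θ l τ * Hx ψ A a τ‖
      ≤ ∫ τ : E 1, (closedBall (0 : E 1) (2 * l)).indicator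
        (fun _ => M * (C / A * (1 + ‖a‖) ^ (-kap m))) τ := by
        refine integral_mono_of_nonneg (Eventually.of_forall fun s => by positivity) ?_
          (Eventually.of_forall hpt)
        rw [integrable_indicator_iff isClosed_closedBall.measurableSet]
        exact integrableOn_const measure_closedBall_lt_top.ne
    _ = 2 * l * V * (M * (C / A * (1 + ‖a‖) ^ (-kap m))) := by
        rw [integral_indicator isClosed_closedBall.measurableSet, setIntegral_const, hfin,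
          smul_eq_mul]
    _ = (M * C * 2 * V) * l / A * (1 + ‖a‖) ^ (-kap m) := by ring
    _ ≤ (M * C * 2 * V + 1) * l / A * (1 + ‖a‖) ^ (-kap m) := by
        gcongr
        linarith

/-- `KL` -/
theorem t_kl (m : ℕ) (_hm : 2 ≤ m) : S_RAD m → S_KK (m + 1) → S_KL m := by
  intro hrad hkk ψ θ hψ hθ
  obtain ⟨C1, hC1, h1⟩ := kl_one hkk hψ hθ
  obtain ⟨C2, hC2, h2⟩ := kl_two hrad hψ hθ
  refine ⟨C1 + C2, by positivity, fun A hA l hl hl8 x => ⟨?_, ?_⟩⟩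
  · have hA0 : 0 < A := by linarith
    refine (h1 A hA l hl x).trans ?_
    gcongr
    linarith
  · have hA0 : 0 < A := by linarith
    refine (h2 A hA l hl hl8 x).trans ?_
    gcongr
    linarith

/-- `KH` -/
theorem t_kh (m : ℕ) (_hm : 2 ≤ m) : S_KK (m + 1) → S_KH m := by
  intro hkk ψ θ hψ hθ
  obtain ⟨C, hC, hk⟩ := hkk ψ hψ
  have hl : (0 : ℝ) < 1 / 8 := by norm_num
  have hw : Integrable fun s : E 1 => (1 + ‖s‖) ^ ((m : ℝ) / 2) * ‖𝓕 (Th θ (1 / 8)) s‖ := by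
    have h1 := ((Th_four_int hθ hl).add (Th_w hθ hl m)).const_mul (2 ^ m : ℝ)
    refine h1.mono' ?_ (Eventually.of_forall fun s => ?_)
    · have h2 : Continuous (𝓕 (Th θ (1 / 8))) := four_cont (Th_int hθ hl)
      have h3 : Continuous fun s : E 1 => (1 + ‖s‖) ^ ((m : ℝ) / 2) := by
        refine Continuous.rpow_const (by fun_prop) fun s => Or.inl ?_
        positivity
      exact (h3.mul h2.norm).aestronglyMeasurable
    · have h4 : (1 + ‖s‖) ^ ((m : ℝ) / 2) ≤ (1 + ‖s‖) ^ m := by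
        rw [← Real.rpow_natCast]
        refine Real.rpow_le_rpow_of_exponent_le (by linarith [norm_nonneg s]) ?_
        have : (0 : ℝ) ≤ m := Nat.cast_nonneg m
        linarith
      have h5 : (1 + ‖s‖) ^ m ≤ 2 ^ m * (1 + ‖s‖ ^ m) := by
        rcases le_total ‖s‖ 1 with h | h
        · calc (1 + ‖s‖) ^ m ≤ 2 ^ m := pow_le_pow_left₀ (by positivity) (by linarith) m
            _ ≤ 2 ^ m * (1 + ‖s‖ ^ m) := by
                have : 0 ≤ ‖s‖ ^ m := by positivity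
                have h6 : (0 : ℝ) < 2 ^ m := by positivity
                nlinarith
        · calc (1 + ‖s‖) ^ m ≤ (2 * ‖s‖) ^ m := pow_le_pow_left₀ (by positivity) (by linarith) m
            _ = 2 ^ m * ‖s‖ ^ m := by rw [mul_pow]
            _ ≤ 2 ^ m * (1 + ‖s‖ ^ m) := by
                gcongr
                linarith
      rw [Real.norm_eq_abs, abs_of_nonneg (by positivity)]
      calc (1 + ‖s‖) ^ ((m : ℝ) / 2) * ‖𝓕 (Th θ (1 / 8)) s‖
          ≤ (2 ^ m * (1 + ‖s‖ ^ m)) * ‖𝓕 (Th θ (1 / 8)) s‖ := by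
            gcongr
            exact h4.trans h5
        _ = _ := by
            simp only [Pi.add_apply]
            ring
  obtain ⟨W, hW⟩ : ∃ W, W = ∫ s : E 1, (1 + ‖s‖) ^ ((m : ℝ) / 2) * ‖𝓕 (Th θ (1 / 8)) s‖ :=
    ⟨_, rfl⟩
  have hW0 : 0 ≤ W := by
    rw [hW]
    exact integral_nonneg fun _ => by positivity
  refine ⟨C * (W + 1), by positivity, fun A hA x => ?_⟩
  have hA0 : 0 < A := by linarith
  obtain ⟨a, t, rfl⟩ : ∃ a t, es m 1 (a, t) = x := ⟨_, _, es_hp x⟩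
  refine (pm_norm hψ hθ (by linarith) hl a t).trans ?_
  have hkb : ∀ s : E 1, ‖Kr ψ A 1 (es m 1 (a, s))‖ ≤
      C / A * (1 + ‖es m 1 (a, t)‖) ^ (-(m : ℝ) / 2) * (1 + ‖t - s‖) ^ ((m : ℝ) / 2) := by
    intro s
    have h1 := (hk A 1 1 hA le_rfl one_le_two le_rfl one_le_two (es m 1 (a, s))).1
    have h2 : -kap (m + 1) = -(m : ℝ) / 2 := by
      unfold kap
      push_cast
      ring
    rw [h2] at h1
    refine h1.trans ?_
    have h3 : ‖es m 1 (a, t)‖ ≤ ‖es m 1 (a, s)‖ + ‖t - s‖ := by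
      have e1 : es m 1 (a, t) = es m 1 (a, s) + es m 1 (0, t - s) := by
        rw [es_fun, ← map_add]
        congr 1
        simp
      have e2 : ‖es m 1 ((0 : E m), t - s)‖ = ‖t - s‖ := by
        have := es_norm (0 : E m) (t - s)
        rw [norm_zero] at this
        have h5 : ‖es m 1 ((0 : E m), t - s)‖ ^ 2 = ‖t - s‖ ^ 2 := by linarith
        exact (sq_eq_sq₀ (norm_nonneg _) (norm_nonneg _)).1 h5
      rw [e1, ← e2]
      exact norm_add_le _ _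
    have h4 : 1 + ‖es m 1 (a, t)‖ ≤ (1 + ‖es m 1 (a, s)‖) * (1 + ‖t - s‖) := by
      nlinarith [norm_nonneg (es m 1 (a, s)), norm_nonneg (t - s),
        mul_nonneg (norm_nonneg (es m 1 (a, s))) (norm_nonneg (t - s))]
    have hm0 : (0 : ℝ) ≤ (m : ℝ) / 2 := by positivity
    have h5 : (1 + ‖es m 1 (a, t)‖) ^ ((m : ℝ) / 2) ≤
        (1 + ‖es m 1 (a, s)‖) ^ ((m : ℝ) / 2) * (1 + ‖t - s‖) ^ ((m : ℝ) / 2) := by
      rw [← Real.mul_rpow (by positivity) (by positivity)]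
      exact Real.rpow_le_rpow (by positivity) h4 hm0
    have h6 : (1 + ‖es m 1 (a, s)‖) ^ (-(m : ℝ) / 2) ≤
        (1 + ‖es m 1 (a, t)‖) ^ (-(m : ℝ) / 2) * (1 + ‖t - s‖) ^ ((m : ℝ) / 2) := by
      have e3 : -(m : ℝ) / 2 = -((m : ℝ) / 2) := by ring
      rw [e3, Real.rpow_neg (by positivity), Real.rpow_neg (by positivity), inv_mul_eq_div,
        le_div_iff₀ (by positivity), inv_mul_le_iff₀ (by positivity)]
      exact h5
    calc C / A * (1 + ‖es m 1 (a, s)‖) ^ (-(m : ℝ) / 2)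
        ≤ C / A * ((1 + ‖es m 1 (a, t)‖) ^ (-(m : ℝ) / 2) * (1 + ‖t - s‖) ^ ((m : ℝ) / 2)) := by
          gcongr
      _ = _ := by ring
  have hTi : Integrable fun s : E 1 => (1 + ‖t - s‖) ^ ((m : ℝ) / 2) *
      ‖𝓕 (Th θ (1 / 8)) (t - s)‖ := hw.comp_sub_left t
  calc ∫ s : E 1, ‖𝓕 (Th θ (1 / 8)) (t - s)‖ * ‖Kr ψ A 1 (es m 1 (a, s))‖
      ≤ ∫ s : E 1, (C / A * (1 + ‖es m 1 (a, t)‖) ^ (-(m : ℝ) / 2)) *
          ((1 + ‖t - s‖) ^ ((m : ℝ) / 2) * ‖𝓕 (Th θ (1 / 8)) (t - s)‖) := by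
        refine integral_mono_of_nonneg (Eventually.of_forall fun s => by positivity)
          (hTi.const_mul _) (Eventually.of_forall fun s => ?_)
        dsimp only
        calc ‖𝓕 (Th θ (1 / 8)) (t - s)‖ * ‖Kr ψ A 1 (es m 1 (a, s))‖
            ≤ ‖𝓕 (Th θ (1 / 8)) (t - s)‖ * (C / A * (1 + ‖es m 1 (a, t)‖) ^ (-(m : ℝ) / 2) *
              (1 + ‖t - s‖) ^ ((m : ℝ) / 2)) := mul_le_mul_of_nonneg_left (hkb s) (norm_nonneg _)
          _ = _ := by ring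
    _ = (C / A * (1 + ‖es m 1 (a, t)‖) ^ (-(m : ℝ) / 2)) * W := by
        rw [integral_const_mul, hW, integral_sub_left_eq_self
          (fun s => (1 + ‖s‖) ^ ((m : ℝ) / 2) * ‖𝓕 (Th θ (1 / 8)) s‖) volume t]
    _ ≤ (C / A * (1 + ‖es m 1 (a, t)‖) ^ (-(m : ℝ) / 2)) * (W + 1) := by
        gcongr
        linarith
    _ = _ := by ring

end Pool.Agent.Y574.FD
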